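import Pool.Agent.Lib.MP_2315c8_nt.Main

/-!
# Automorphisms of the complex exponential field: independence

Let `α i` be exponential automorphisms of `ℂ` (any family of them) and `F` a subfield of `ℂ` with
`i ∈ F` over which the transcendence degree of `ℂ` is less than the continuum.  The tuples
`(α i x)`, `x ∈ F`, are dense in the power of `ℂ` if and only if no two of the automorphisms are
equal or complex conjugate.
-/

set_option autoImplicit false

open Complex Cardinal Pool.Agent.Lib.MP_2315c8_nt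

namespace Pool.Agent.Results.MP_2315c8_nt.Independence

/-- A field `K` of complex numbers is closed if it contains every number `t` such that `t` and
`1 / t` are zeros of exponential polynomials over `K` which are not identically zero. -/
def ExpClosed (K : Subfield ℂ) : Prop :=
  ∀ t : ℂ, (∃ f, ExpPoly K f ∧ (∃ z, f z ≠ 0) ∧ f t = 0) →
    (∃ f, ExpPoly K f ∧ (∃ z, f z ≠ 0) ∧ f t⁻¹ = 0) → t ∈ K

/-- The field of the numbers with a finite orbit. -/
def Per (γ : ℂ ≃+* ℂ) : Subfield ℂ where
  carrier := {z | ∃ m : ℕ, 0 < m ∧ γ^[m] z = z}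
  mul_mem' := by
    rintro a b ⟨m, hm, ha⟩ ⟨n, hn, hb⟩
    refine ⟨m * n, Nat.mul_pos hm hn, ?_⟩
    have ha' : γ^[m * n] a = a := by rw [Function.iterate_mul, Function.iterate_fixed ha]
    have hb' : γ^[m * n] b = b := by
      rw [mul_comm, Function.iterate_mul, Function.iterate_fixed hb]
    rw [iterate_map_mul, ha', hb']
  one_mem' := ⟨1, one_pos, map_one γ⟩
  add_mem' := by
    rintro a b ⟨m, hm, ha⟩ ⟨n, hn, hb⟩
    refine ⟨m * n, Nat.mul_pos hm hn, ?_⟩
    have ha' : γ^[m * n] a = a := by rw [Function.iterate_mul, Function.iterate_fixed ha]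
    have hb' : γ^[m * n] b = b := by
      rw [mul_comm, Function.iterate_mul, Function.iterate_fixed hb]
    rw [iterate_map_add, ha', hb']
  zero_mem' := ⟨1, one_pos, map_zero γ⟩
  neg_mem' := by
    rintro a ⟨m, hm, ha⟩
    exact ⟨m, hm, by rw [iterate_map_neg, ha]⟩
  inv_mem' := by
    rintro a ⟨m, hm, ha⟩
    exact ⟨m, hm, by rw [iter_inv, ha]⟩

lemma mem_Per {γ : ℂ ≃+* ℂ} {z : ℂ} : z ∈ Per γ ↔ ∃ m : ℕ, 0 < m ∧ γ^[m] z = z := Iff.rfl

/-- A property of a period passes to its multiples. -/
lemma comm_mul {γ : ℂ ≃+* ℂ} {f : ℂ → ℂ} {m : ℕ} (h : ∀ z, γ^[m] (f z) = f (γ^[m] z)) (k : ℕ)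
    (z : ℂ) : γ^[m * k] (f z) = f (γ^[m * k] z) := by
  induction k with
  | zero => rfl
  | succ k ih =>
    rw [Nat.mul_succ, Nat.add_comm, Function.iterate_add_apply, ih, h,
      ← Function.iterate_add_apply]

lemma exp_iter {γ : ℂ ≃+* ℂ} (hγ : ∀ z, γ (exp z) = exp (γ z)) (m : ℕ) (z : ℂ) :
    γ^[m] (exp z) = exp (γ^[m] z) := by
  induction m with
  | zero => rfl
  | succ m ih => rw [Function.iterate_succ_apply', Function.iterate_succ_apply', ih, hγ]

/-- A power of the automorphism commutes with an exponential polynomial over the periodic numbers. -/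
lemma exists_period {γ : ℂ ≃+* ℂ} (hγ : ∀ z, γ (exp z) = exp (γ z)) {f : ℂ → ℂ}
    (hf : ExpPoly (Per γ) f) : ∃ m : ℕ, 0 < m ∧ ∀ z, γ^[m] (f z) = f (γ^[m] z) := by
  induction hf with
  | const a ha =>
    obtain ⟨m, hm, h⟩ := ha
    exact ⟨m, hm, fun _ => h⟩
  | var => exact ⟨1, one_pos, fun _ => rfl⟩
  | add f g _ _ hf hg =>
    obtain ⟨m, hm, hf⟩ := hf
    obtain ⟨n, hn, hg⟩ := hg
    refine ⟨m * n, Nat.mul_pos hm hn, fun z => ?_⟩
    rw [iterate_map_add, comm_mul hf n z]
    rw [mul_comm m n, comm_mul hg m z]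
  | mul f g _ _ hf hg =>
    obtain ⟨m, hm, hf⟩ := hf
    obtain ⟨n, hn, hg⟩ := hg
    refine ⟨m * n, Nat.mul_pos hm hn, fun z => ?_⟩
    rw [iterate_map_mul, comm_mul hf n z]
    rw [mul_comm m n, comm_mul hg m z]
  | exp f _ hf =>
    obtain ⟨m, hm, hf⟩ := hf
    exact ⟨m, hm, fun z => by rw [exp_iter hγ, hf]⟩

/-- The field of the numbers with a finite orbit is closed. -/
lemma expClosed_Per {γ : ℂ ≃+* ℂ} (hγ : ∀ z, γ (exp z) = exp (γ z)) : ExpClosed (Per γ) := by
  rintro t ⟨f, hf, hf0, hft⟩ ⟨g, hg, hg0, hgt⟩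
  obtain ⟨m, hm, hfm⟩ := exists_period hγ hf
  obtain ⟨n, hn, hgn⟩ := exists_period hγ hg
  set M := m * n with hM
  have hM0 : 0 < M := Nat.mul_pos hm hn
  have hf1 : ∀ k : ℕ, f (γ^[M * k] t) = 0 := by
    intro k
    rw [hM, mul_assoc, ← comm_mul hfm, hft, iterate_map_zero]
  have hg1 : ∀ k : ℕ, g (γ^[M * k] t⁻¹) = 0 := by
    intro k
    rw [hM, mul_comm m n, mul_assoc, ← comm_mul hgn, hgt, iterate_map_zero]
  have hfin : (Set.range fun k : ℕ => γ^[M * k] t).Finite := by
    refine ((zeros_finite hf.differentiable hf0).union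
      ((zeros_finite hg.differentiable hg0).image fun z => z⁻¹)).subset ?_
    rintro _ ⟨k, rfl⟩
    by_cases hk : ‖γ^[M * k] t‖ ≤ 1
    · exact Or.inl ⟨hk, hf1 k⟩
    · refine Or.inr ⟨(γ^[M * k] t)⁻¹, ⟨?_, ?_⟩, inv_inv _⟩
      · rw [norm_inv]
        push Not at hk
        exact inv_le_one_of_one_le₀ hk.le
      · rw [← iter_inv]
        exact hg1 k
  have hninj : ¬ Function.Injective fun k : ℕ => γ^[M * k] t := fun hinj =>
    Set.infinite_range_of_injective hinj hfin
  rw [Function.Injective] at hninj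
  push Not at hninj
  obtain ⟨a, b, hab, hne⟩ := hninj
  have key : ∀ a b : ℕ, a < b → γ^[M * a] t = γ^[M * b] t → t ∈ Per γ := by
    intro a b hlt he
    refine ⟨M * b - M * a, Nat.sub_pos_of_lt (Nat.mul_lt_mul_of_pos_left hlt hM0), ?_⟩
    have hi : Function.Injective γ^[M * a] := γ.injective.iterate _
    apply hi
    rw [← Function.iterate_add_apply, Nat.add_sub_cancel' (Nat.mul_le_mul_left M hlt.le)]
    exact he.symm
  rcases lt_or_gt_of_ne hne with hlt | hlt
  · exact key a b hlt hab
  · exact key b a hlt hab.symm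

/-- An exponential automorphism which fixes `F`, `i ∈ F`, is the identity if `F` is contained in no
proper closed field. -/
lemma eq_id_of_fixes {γ : ℂ ≃+* ℂ} (hγ : ∀ z, γ (exp z) = exp (γ z)) {F : Subfield ℂ}
    (hI : I ∈ F) (hfix : ∀ x ∈ F, γ x = x)
    (hF : ∀ K : Subfield ℂ, F ≤ K → ExpClosed K → K = ⊤) (z : ℂ) : γ z = z := by
  have hπ : γ (2 * Real.pi * I) = 2 * Real.pi * I := by
    rcases map_two_pi_I hγ with h | h
    · exact h
    · exfalso
      have h6 : exp (2 * Real.pi * I / 4) = I := by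
        rw [show (2 * Real.pi * I / 4 : ℂ) = (Real.pi / 2 : ℂ) * I by ring, Complex.exp_mul_I]
        simp
      have h7 : exp (γ (2 * Real.pi * I / 4)) = I := by
        rw [← hγ, h6, hfix I hI]
      have h8 : γ (2 * Real.pi * I / 4) = -(2 * Real.pi * I / 4) := by
        rw [map_div₀, h, map_ofNat]
        ring
      rw [h8, Complex.exp_neg, h6, Complex.inv_I] at h7
      have h10 : (2 : ℂ) * I = 0 := by linear_combination -h7
      simp at h10
  have htop : Per γ = ⊤ := hF _ (fun x hx => ⟨1, one_pos, hfix x hx⟩) (expClosed_Per hγ)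
  refine eq_id_of_periodic hγ hπ (fun t => ?_) z
  have ht : t ∈ Per γ := by
    rw [htop]
    trivial
  exact ht

lemma symm_exp {α : ℂ ≃+* ℂ} (hα : ∀ z, α (exp z) = exp (α z)) (z : ℂ) :
    α.symm (exp z) = exp (α.symm z) := by
  apply α.injective
  rw [hα, α.apply_symm_apply, α.apply_symm_apply]

/-- The absolute value of a field of complex numbers that is given by an automorphism. -/
noncomputable def absVal (α : ℂ ≃+* ℂ) (F : Subfield ℂ) : AbsoluteValue F ℝ where
  toFun x := ‖α x‖
  map_mul' x y := by simp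
  nonneg' x := norm_nonneg _
  eq_zero' x := by simp
  add_le' x y := by
    simpa using norm_add_le (α x) (α y)

lemma absVal_apply (α : ℂ ≃+* ℂ) (F : Subfield ℂ) (x : F) : absVal α F x = ‖α x‖ := rfl

lemma absVal_two (α : ℂ ≃+* ℂ) (F : Subfield ℂ) : absVal α F 2 = 2 := by
  rw [absVal_apply]
  have : (((2 : F) : ℂ)) = 2 := rfl
  rw [this, map_ofNat]
  simp

/-- Equivalent absolute values come from automorphisms which are equal or conjugate on `F`. -/
lemma eq_or_conj {α β : ℂ ≃+* ℂ} {F : Subfield ℂ} (hI : I ∈ F)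
    (h : (absVal α F).IsEquiv (absVal β F)) :
    (∀ x ∈ F, β x = α x) ∨ ∀ x ∈ F, β x = starRingEnd ℂ (α x) := by
  obtain ⟨c, hc, hc'⟩ := AbsoluteValue.isEquiv_iff_exists_rpow_eq.1 h
  have hc1 : c = 1 := by
    have h2 := congrFun hc' 2
    simp only [absVal_two] at h2
    have h3 : (2 : ℝ) ^ c = 2 ^ (1 : ℝ) := by rw [h2, Real.rpow_one]
    exact (Real.rpow_right_inj (by norm_num) (by norm_num)).1 h3
  have hn : ∀ x ∈ F, ‖α x‖ = ‖β x‖ := by
    intro x hx
    have h2 := congrFun hc' ⟨x, hx⟩
    simp only [hc1, Real.rpow_one] at h2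
    exact h2
  have hsq : ∀ x ∈ F, (α x).re ^ 2 + (α x).im ^ 2 = (β x).re ^ 2 + (β x).im ^ 2 := by
    intro x hx
    have h2 := hn x hx
    have h3 : Complex.normSq (α x) = Complex.normSq (β x) := by
      rw [Complex.normSq_eq_norm_sq, Complex.normSq_eq_norm_sq, h2]
    rw [Complex.normSq_apply, Complex.normSq_apply] at h3
    nlinarith [h3]
  have hre : ∀ x ∈ F, (β x).re = (α x).re := by
    intro x hx
    have h1 := hsq x hx
    have h2 := hsq (x - 1) (sub_mem hx (one_mem F))
    rw [map_sub, map_sub, map_one, map_one] at h2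
    simp only [Complex.sub_re, Complex.one_re, Complex.sub_im, Complex.one_im] at h2
    nlinarith
  have hII : ∀ δ : ℂ ≃+* ℂ, δ I = I ∨ δ I = -I := by
    intro δ
    have h1 : δ I * δ I = -1 := by
      rw [← map_mul, Complex.I_mul_I, map_neg, map_one]
    have h2 : (δ I - I) * (δ I + I) = 0 := by
      linear_combination h1 - Complex.I_mul_I
    rcases mul_eq_zero.1 h2 with h | h
    · exact Or.inl (sub_eq_zero.1 h)
    · exact Or.inr (eq_neg_of_add_eq_zero_left h)
  have him : ∀ x ∈ F, (β (I * x)).re = (α (I * x)).re := fun x hx => hre _ (mul_mem hI hx)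
  rcases hII α with ha | ha <;> rcases hII β with hb | hb
  · left
    intro x hx
    have h1 := him x hx
    rw [map_mul, map_mul, ha, hb] at h1
    simp only [Complex.mul_re, Complex.I_re, Complex.I_im, zero_mul, one_mul, zero_sub] at h1
    exact Complex.ext (hre x hx) (by linarith)
  · right
    intro x hx
    have h1 := him x hx
    rw [map_mul, map_mul, ha, hb] at h1
    simp only [Complex.mul_re, Complex.I_re, Complex.I_im, Complex.neg_re, zero_mul, one_mul,
      zero_sub, neg_mul] at h1
    exact Complex.ext (by rw [Complex.conj_re]; exact hre x hx)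
      (by rw [Complex.conj_im]; linarith)
  · right
    intro x hx
    have h1 := him x hx
    rw [map_mul, map_mul, ha, hb] at h1
    simp only [Complex.mul_re, Complex.I_re, Complex.I_im, Complex.neg_re, zero_mul, one_mul,
      zero_sub, neg_mul] at h1
    exact Complex.ext (by rw [Complex.conj_re]; exact hre x hx)
      (by rw [Complex.conj_im]; linarith)
  · left
    intro x hx
    have h1 := him x hx
    rw [map_mul, map_mul, ha, hb] at h1
    simp only [Complex.mul_re, Complex.I_re, Complex.I_im, Complex.neg_re, zero_mul, one_mul,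
      zero_sub, neg_mul] at h1
    exact Complex.ext (hre x hx) (by linarith)

/-- The image of a field which contains `i` is dense. -/
lemma denseRange_image (α : ℂ ≃+* ℂ) {F : Subfield ℂ} (hI : I ∈ F) :
    DenseRange fun x : WithAbs (absVal α F) => α ((WithAbs.equiv _ x : F) : ℂ) := by
  set F' : Subfield ℂ := F.map (α : ℂ →+* ℂ) with hF'
  have hI' : I ∈ F' := by
    have h1 : α I ∈ F' := ⟨I, hI, rfl⟩
    have h2 : α I * α I = -1 := by
      rw [← map_mul, Complex.I_mul_I, map_neg, map_one]
    have h3 : (α I - I) * (α I + I) = 0 := by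
      linear_combination h2 - Complex.I_mul_I
    rcases mul_eq_zero.1 h3 with h | h
    · rwa [sub_eq_zero.1 h] at h1
    · rw [eq_neg_of_add_eq_zero_left h] at h1
      simpa using neg_mem h1
  have hd : F'.topologicalClosure = ⊤ := by
    rcases Complex.subfield_eq_of_closed (K := F'.topologicalClosure)
      F'.isClosed_topologicalClosure with h1 | h1
    · exfalso
      have h2 : I ∈ F'.topologicalClosure := F'.le_topologicalClosure hI'
      rw [h1] at h2
      obtain ⟨y, hy⟩ := h2
      have h3 := congrArg Complex.im hy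
      simp at h3
    · exact h1
  intro z
  have h2 : z ∈ F'.topologicalClosure := by
    rw [hd]
    trivial
  have h3 : z ∈ closure (F' : Set ℂ) := h2
  refine closure_mono ?_ h3
  rintro _ ⟨y, hy, rfl⟩
  exact ⟨(WithAbs.equiv _).symm ⟨y, hy⟩, by simp⟩

lemma isometry_image (α : ℂ ≃+* ℂ) (F : Subfield ℂ) :
    Isometry fun x : WithAbs (absVal α F) => α ((WithAbs.equiv _ x : F) : ℂ) := by
  refine Isometry.of_dist_eq fun x y => ?_
  rw [dist_eq_norm, dist_eq_norm, ← map_sub]
  rfl

/-- The finite case. -/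
lemma dense_of_finite {ι : Type*} [Finite ι] (α : ι → ℂ ≃+* ℂ)
    (hα : ∀ i, ∀ z : ℂ, α i (exp z) = exp (α i z)) {F : Subfield ℂ} (hI : I ∈ F)
    (hF : ∀ K : Subfield ℂ, F ≤ K → ExpClosed K → K = ⊤)
    (h : ∀ i j, i ≠ j → (∃ z, α j z ≠ α i z) ∧ ∃ z, α j z ≠ starRingEnd ℂ (α i z)) :
    Dense {w : ι → ℂ | ∃ x ∈ F, ∀ i, w i = α i x} := by
  have hv : Pairwise fun i j => ¬ (absVal (α i) F).IsEquiv (absVal (α j) F) := by
    intro i j hij heq
    obtain ⟨⟨z, hz⟩, w, hw⟩ := h i j hij
    rcases eq_or_conj hI heq with h1 | h1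
    · apply hz
      have h2 := eq_id_of_fixes (γ := (α j).trans (α i).symm) (F := F) (fun z => by
        change (α i).symm (α j (exp z)) = exp ((α i).symm (α j z))
        rw [hα, symm_exp (hα i)]) hI (fun x hx => by
        change (α i).symm (α j x) = x
        rw [h1 x hx, (α i).symm_apply_apply]) hF z
      have h3 := congrArg (α i) h2
      change α i ((α i).symm (α j z)) = α i z at h3
      rwa [(α i).apply_symm_apply] at h3
    · apply hw
      have h2 := eq_id_of_fixes (γ := ((α j).trans starRingAut).trans (α i).symm) (F := F)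
        (fun z => by
          change (α i).symm (starRingEnd ℂ (α j (exp z))) =
            exp ((α i).symm (starRingEnd ℂ (α j z)))
          rw [hα, ← Complex.exp_conj, symm_exp (hα i)]) hI (fun x hx => by
          change (α i).symm (starRingEnd ℂ (α j x)) = x
          rw [h1 x hx, Complex.conj_conj, (α i).symm_apply_apply]) hF w
      have h3 := congrArg (α i) h2
      change α i ((α i).symm (starRingEnd ℂ (α j w))) = α i w at h3
      rw [(α i).apply_symm_apply] at h3
      rw [← h3, Complex.conj_conj]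
  have hnt : ∀ i, (absVal (α i) F).IsNontrivial := fun i =>
    ⟨2, two_ne_zero, by rw [absVal_two]; norm_num⟩
  have h1 := AbsoluteValue.denseRange_algebraMap_pi hnt hv
  have h2 : DenseRange (fun (y : (i : ι) → WithAbs (absVal (α i) F)) (i : ι) =>
      α i ((WithAbs.equiv _ (y i) : F) : ℂ)) :=
    DenseRange.piMap fun i => denseRange_image (α i) hI
  have h3 : Continuous (fun (y : (i : ι) → WithAbs (absVal (α i) F)) (i : ι) =>
      α i ((WithAbs.equiv _ (y i) : F) : ℂ)) :=
    continuous_pi fun i => (isometry_image (α i) F).continuous.comp (continuous_apply i)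
  have h4 := h2.comp h1 h3
  refine h4.mono ?_
  rintro _ ⟨x, rfl⟩
  exact ⟨x, x.2, fun i => rfl⟩

/-- **Independence.**  Let `α i` be any family of exponential automorphisms of `ℂ` and `F` a
subfield of `ℂ` with `i ∈ F` such that the transcendence degree of `ℂ` over `F` is less than the
continuum, or only such that `F` is contained in no closed field other than `ℂ`.  The tuples
`(α i x)`, `x ∈ F`, are dense in the power of `ℂ` (product topology) if and only if no two of the
automorphisms are equal or complex conjugate. -/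
theorem result {ι : Type} (α : ι → ℂ ≃+* ℂ)
    (hα : ∀ i, ∀ z : ℂ, α i (Complex.exp z) = Complex.exp (α i z))
    (F : Subfield ℂ) (hI : Complex.I ∈ F)
    (hF : Algebra.trdeg F ℂ < Cardinal.continuum ∨
      ∀ K : Subfield ℂ, F ≤ K → ExpClosed K → K = ⊤) :
    Dense {w : ι → ℂ | ∃ x ∈ F, ∀ i, w i = α i x} ↔
      ∀ i j, i ≠ j → (∃ z, α j z ≠ α i z) ∧ ∃ z, α j z ≠ starRingEnd ℂ (α i z) := by
  have hF' : ∀ K : Subfield ℂ, F ≤ K → ExpClosed K → K = ⊤ := by
    rcases hF with h | h
    · intro K hFK hK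
      have h1 : ∀ t : ℂ, ∃ f, ExpPoly K f ∧ (∃ z, f z ≠ 0) ∧ f t = 0 :=
        fun t => exists_expPoly (k := F) (fun a => hFK a.2) h t
      exact top_unique fun t _ => hK t (h1 t) (h1 t⁻¹)
    · exact h
  constructor
  · intro hd i j hij
    classical
    have key : ∀ g : ℂ → ℂ, Continuous g → g 0 ≠ 1 → ∃ z, α j z ≠ g (α i z) := by
      intro g hg hg0
      by_contra hcon
      push Not at hcon
      have hcl : IsClosed {w : ι → ℂ | w j = g (w i)} :=
        isClosed_eq (continuous_apply j) (hg.comp (continuous_apply i))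
      have hsub : {w : ι → ℂ | ∃ x ∈ F, ∀ i, w i = α i x} ⊆ {w : ι → ℂ | w j = g (w i)} := by
        rintro w ⟨x, -, hw⟩
        show w j = g (w i)
        rw [hw, hw, hcon]
      have h1 := hcl.closure_subset_iff.2 hsub (hd (Pi.single j 1))
      have h2 : (Pi.single j (1 : ℂ) : ι → ℂ) j = g ((Pi.single j (1 : ℂ) : ι → ℂ) i) := h1
      rw [Pi.single_eq_same, Pi.single_eq_of_ne hij] at h2
      exact hg0 h2.symm
    exact ⟨key id continuous_id (by simp), key (starRingEnd ℂ) Complex.continuous_conj (by simp)⟩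
  · intro h w
    rw [mem_closure_iff_nhds]
    intro U hU
    rw [nhds_pi, Filter.mem_pi'] at hU
    obtain ⟨s, V, hV, hVU⟩ := hU
    have h1 := dense_of_finite (fun i : s => α i) (fun i => hα i) hI hF'
      (fun i j hij => h i j fun hcon => hij (Subtype.ext hcon)) (fun i : s => w i)
    rw [mem_closure_iff_nhds] at h1
    obtain ⟨y, hy1, x, hx, hy2⟩ := h1 (Set.univ.pi fun i : s => V i)
      (set_pi_mem_nhds Set.finite_univ fun i _ => hV i)
    refine ⟨fun i => α i x, hVU fun i hi => ?_, x, hx, fun i => rfl⟩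
    have h2 := hy1 ⟨i, hi⟩ trivial
    rw [hy2] at h2
    exact h2

end Pool.Agent.Results.MP_2315c8_nt.Independence
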