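import Mathlib

/-!
# Exponential automorphisms of `ℂ` which are locally finite

Let `α` be an exponential automorphism of `ℂ`, `K` its fixed field and `P` the field of the numbers
with a finite orbit (the algebraic closure of `K` in `ℂ`).  If for every `z` the numbers
`z, α z, α² z, …` are linearly dependent over `P`, then `α² = 1`, and `α = 1` if `α(i) = i`.

Proof, for `α(i) = i`.  Then `α` fixes `2πi` and the roots of unity.
(1) `α c = c + 1` is impossible: `αⁿ(e^{c²}) = e^{c²} u^n e^{n²}`, `u = e^{2c}`, so that a linear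
relation over `P` makes `u` algebraic over `P`, but `αⁿ u = e^{2n} u`.
(2) So `α c - c ∈ K` implies `α c = c`.
(3) `e^c ∈ K` implies `c ∈ K`, as `α c - c ∈ 2πiℤ`.
(4) `α y = λ y`, `λ ∈ K`, implies `y ∈ K`: write `y = e^c`, `λ = e^l`, `α c - c - l ∈ 2πiℤ`.
(5) If `P ∈ K[T]` splits over `K`, `P ≠ 0` and `P(α) z = 0`, then `z ∈ K` (induction: if
`P = (T - λ) Q`, then `w = Q(α) z ∈ K` by (4), `Q(α)(α z - z) = α w - w = 0`, so `α z - z ∈ K`, and
`z ∈ K` by (2)).
(6) If `α^m z = z`, then `z ∈ K` by (5), because `T^m - 1` splits over `K`.  So `P = K` is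
algebraically closed, and (5) applies to all `z`.

If `α(i) = -i`, this is applied to `α²`.
-/

set_option autoImplicit false

open Polynomial

namespace Pool.Agent.Results.MP_2315c8_nt.LocallyFinite

/-- The fixed field of `α`. -/
def Fix (α : ℂ ≃+* ℂ) : Subfield ℂ where
  carrier := {z | α z = z}
  mul_mem' {a b} ha hb := by
    change α (a * b) = a * b
    rw [map_mul, show α a = a from ha, show α b = b from hb]
  one_mem' := map_one α
  add_mem' {a b} ha hb := by
    change α (a + b) = a + b
    rw [map_add, show α a = a from ha, show α b = b from hb]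
  zero_mem' := map_zero α
  neg_mem' {a} ha := by
    change α (-a) = -a
    rw [map_neg, show α a = a from ha]
  inv_mem' a ha := by
    change α a⁻¹ = a⁻¹
    rw [map_inv₀, show α a = a from ha]

/-- The field of the numbers with a finite orbit under `α`. -/
def Per (α : ℂ ≃+* ℂ) : Subfield ℂ where
  carrier := {z | ∃ m : ℕ, 0 < m ∧ α^[m] z = z}
  mul_mem' {a b} ha hb := by
    obtain ⟨m, hm, ha⟩ := ha
    obtain ⟨n, hn, hb⟩ := hb
    refine ⟨m * n, Nat.mul_pos hm hn, ?_⟩
    have ha' : α^[m * n] a = a := by rw [Function.iterate_mul, Function.iterate_fixed ha]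
    have hb' : α^[m * n] b = b := by
      rw [mul_comm, Function.iterate_mul, Function.iterate_fixed hb]
    rw [iterate_map_mul, ha', hb']
  one_mem' := ⟨1, one_pos, map_one α⟩
  add_mem' {a b} ha hb := by
    obtain ⟨m, hm, ha⟩ := ha
    obtain ⟨n, hn, hb⟩ := hb
    refine ⟨m * n, Nat.mul_pos hm hn, ?_⟩
    have ha' : α^[m * n] a = a := by rw [Function.iterate_mul, Function.iterate_fixed ha]
    have hb' : α^[m * n] b = b := by
      rw [mul_comm, Function.iterate_mul, Function.iterate_fixed hb]
    rw [iterate_map_add, ha', hb']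
  zero_mem' := ⟨1, one_pos, map_zero α⟩
  neg_mem' {a} ha := by
    obtain ⟨m, hm, ha⟩ := ha
    exact ⟨m, hm, by rw [iterate_map_neg, ha]⟩
  inv_mem' a ha := by
    obtain ⟨m, hm, ha⟩ := ha
    refine ⟨m, hm, ?_⟩
    have h1 : ∀ k : ℕ, α^[k] a⁻¹ = (α^[k] a)⁻¹ := by
      intro k
      induction k with
      | zero => rfl
      | succ k ih => rw [Function.iterate_succ_apply', ih, map_inv₀, Function.iterate_succ_apply']
    rw [h1, ha]

section

variable {α : ℂ ≃+* ℂ}

theorem mem_Fix {z : ℂ} : z ∈ Fix α ↔ α z = z := Iff.rfl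

variable (α) in
/-- `α`, as a linear map over its fixed field. -/
def lin : Module.End (Fix α) ℂ where
  toFun := α
  map_add' := map_add α
  map_smul' k z := by
    rw [RingHom.id_apply, Subfield.smul_def, Subfield.smul_def, smul_eq_mul, smul_eq_mul, map_mul]
    rw [show α (k : ℂ) = k from k.2]

theorem lin_apply (z : ℂ) : lin α z = α z := rfl

theorem lin_pow (j : ℕ) (z : ℂ) : (lin α ^ j) z = α^[j] z := by
  induction j generalizing z with
  | zero => rfl
  | succ j ih => rw [pow_succ, Module.End.mul_apply, ih, Function.iterate_succ_apply]; rfl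

theorem aeval_sum (P : (Fix α)[X]) (z : ℂ) :
    aeval (lin α) P z = P.sum fun j a => (a : ℂ) * α^[j] z := by
  rw [aeval_eq_sum_range, LinearMap.sum_apply, Polynomial.sum_over_range]
  · refine Finset.sum_congr rfl fun j _ => ?_
    rw [LinearMap.smul_apply, lin_pow, Subfield.smul_def, smul_eq_mul]
  · intro j
    simp

/-- a number which is algebraic over the fixed field has a finite orbit -/
theorem orbit_finite {p : (Fix α)[X]} (hp : p ≠ 0) {z : ℂ} (hz : aeval z p = 0) :
    ∃ m : ℕ, 0 < m ∧ α^[m] z = z := by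
  have h1 : ∀ j : ℕ, aeval (α^[j] z) p = 0 := by
    intro j
    induction j with
    | zero => exact hz
    | succ j ih =>
      rw [Function.iterate_succ_apply']
      have h2 := congrArg α ih
      rw [map_zero, aeval_eq_sum_range, map_sum] at h2
      rw [aeval_eq_sum_range, ← h2]
      refine Finset.sum_congr rfl fun i _ => ?_
      rw [Subfield.smul_def, Subfield.smul_def, smul_eq_mul, smul_eq_mul, map_mul, map_pow]
      rw [show α (p.coeff i : ℂ) = p.coeff i from (p.coeff i).2]
  have h2 : ∀ j : ℕ, α^[j] z ∈ (p.rootSet ℂ) := by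
    intro j
    rw [mem_rootSet]
    exact ⟨hp, h1 j⟩
  have h3 : ¬ Function.Injective fun j : ℕ => α^[j] z := by
    intro h
    have h4 : (Set.range fun j : ℕ => α^[j] z).Infinite := Set.infinite_range_of_injective h
    exact h4 ((rootSet_finite p ℂ).subset (by rintro _ ⟨j, rfl⟩; exact h2 j))
  rw [Function.Injective] at h3
  push Not at h3
  obtain ⟨a, b, hab, hne⟩ := h3
  wlog hlt : a < b generalizing a b
  · exact this b a hab.symm hne.symm (lt_of_le_of_ne (not_lt.1 hlt) hne.symm)
  refine ⟨b - a, Nat.sub_pos_of_lt hlt, ?_⟩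
  have h5 : α^[a] (α^[b - a] z) = α^[a] z := by
    rw [← Function.iterate_add_apply, Nat.add_sub_cancel' hlt.le]
    exact hab.symm
  exact (α.injective.iterate a) h5

theorem iterate_sum (m : ℕ) {κ : Type*} (s : Finset κ) (f : κ → ℂ) :
    α^[m] (∑ i ∈ s, f i) = ∑ i ∈ s, α^[m] (f i) := by
  induction m with
  | zero => rfl
  | succ m ih =>
    rw [Function.iterate_succ_apply', ih, map_sum]
    exact Finset.sum_congr rfl fun i _ => (Function.iterate_succ_apply' ..).symm

theorem mem_Per {z : ℂ} : z ∈ Per α ↔ ∃ m : ℕ, 0 < m ∧ α^[m] z = z := Iff.rfl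

/-- a root of a polynomial whose coefficients have finite orbits has a finite orbit -/
theorem mem_Per_of_root {p : (Per α)[X]} (hp : p ≠ 0) {z : ℂ} (hz : aeval z p = 0) :
    z ∈ Per α := by
  have h1 : ∃ m : ℕ, 0 < m ∧ ∀ i, α^[m] (p.coeff i : ℂ) = p.coeff i := by
    have h2 : ∀ i, ∃ m : ℕ, 0 < m ∧ α^[m] (p.coeff i : ℂ) = p.coeff i := fun i => (p.coeff i).2
    choose m hm0 hm using h2
    refine ⟨∏ i ∈ p.support, m i, Finset.prod_pos fun i _ => hm0 i, fun i => ?_⟩
    by_cases hi : i ∈ p.support
    · obtain ⟨k, hk⟩ := Finset.dvd_prod_of_mem m hi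
      rw [hk, Function.iterate_mul, Function.iterate_fixed (hm i)]
    · rw [notMem_support_iff.1 hi]
      exact iterate_map_zero α _
  obtain ⟨m, hm0, hm⟩ := h1
  have h1 : ∀ j : ℕ, aeval ((α^[m])^[j] z) p = 0 := by
    intro j
    induction j with
    | zero => exact hz
    | succ j ih =>
      rw [Function.iterate_succ_apply']
      have h2 := congrArg (α^[m]) ih
      rw [iterate_map_zero, aeval_eq_sum_range] at h2
      rw [aeval_eq_sum_range, ← h2, iterate_sum]
      refine Finset.sum_congr rfl fun i _ => ?_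
      rw [Subfield.smul_def, Subfield.smul_def, smul_eq_mul, smul_eq_mul, iterate_map_mul,
        iterate_map_pow, hm]
  have h3 : ¬ Function.Injective fun j : ℕ => (α^[m])^[j] z := by
    intro h
    have h4 : (Set.range fun j : ℕ => (α^[m])^[j] z).Infinite := Set.infinite_range_of_injective h
    refine h4 ((rootSet_finite p ℂ).subset ?_)
    rintro _ ⟨j, rfl⟩
    rw [mem_rootSet]
    exact ⟨hp, h1 j⟩
  rw [Function.Injective] at h3
  push Not at h3
  obtain ⟨a, b, hab, hne⟩ := h3
  wlog hlt : a < b generalizing a b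
  · exact this b a hab.symm hne.symm (lt_of_le_of_ne (not_lt.1 hlt) hne.symm)
  refine ⟨m * (b - a), Nat.mul_pos hm0 (Nat.sub_pos_of_lt hlt), ?_⟩
  have h5 : (α^[m])^[a] ((α^[m])^[b - a] z) = (α^[m])^[a] z := by
    rw [← Function.iterate_add_apply, Nat.add_sub_cancel' hlt.le]
    exact hab.symm
  rw [Function.iterate_mul]
  exact ((α.injective.iterate m).iterate a) h5

end

section exp

variable {α : ℂ ≃+* ℂ}

theorem fix_two_pi (hα : ∀ z, α (Complex.exp z) = Complex.exp (α z)) (hI : α Complex.I = Complex.I) :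
    α (2 * Real.pi * Complex.I) = 2 * Real.pi * Complex.I := by
  have h1 : Complex.exp (α (2 * Real.pi * Complex.I)) = 1 := by
    rw [← hα, Complex.exp_two_pi_mul_I, map_one]
  obtain ⟨n, hn⟩ := Complex.exp_eq_one_iff.1 h1
  have h2 : Complex.exp (α.symm (2 * Real.pi * Complex.I)) = 1 := by
    apply α.injective
    rw [hα, α.apply_symm_apply, Complex.exp_two_pi_mul_I, map_one]
  obtain ⟨m, hm⟩ := Complex.exp_eq_one_iff.1 h2
  have hne : (2 * Real.pi * Complex.I : ℂ) ≠ 0 := Complex.two_pi_I_ne_zero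
  have h3 : ((m * n : ℤ) : ℂ) * (2 * Real.pi * Complex.I) = 2 * Real.pi * Complex.I := by
    have h4 := congrArg α hm
    rw [α.apply_symm_apply, map_mul, map_intCast, hn] at h4
    rw [Int.cast_mul, mul_assoc]
    exact h4.symm
  have h4 : m * n = 1 := by
    have h5 : ((m * n : ℤ) : ℂ) = 1 := by
      have h6 := mul_right_cancel₀ hne (h3.trans (one_mul _).symm)
      exact h6
    exact_mod_cast h5
  have h5 : n = 1 ∨ n = -1 := by
    have h6 : n ∣ 1 := Dvd.intro_left m h4
    exact Int.isUnit_iff.1 (isUnit_of_dvd_one h6)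
  rcases h5 with h5 | h5
  · rw [hn, h5]
    simp
  · exfalso
    rw [h5] at hn
    have h6 : Complex.exp (2 * Real.pi * Complex.I / 4) = Complex.I := by
      rw [show (2 * Real.pi * Complex.I / 4 : ℂ) = (Real.pi / 2 : ℂ) * Complex.I by ring,
        Complex.exp_mul_I]
      simp
    have h7 : Complex.exp (α (2 * Real.pi * Complex.I / 4)) = Complex.I := by
      rw [← hα, h6, hI]
    have h8 : α (2 * Real.pi * Complex.I / 4) = -(2 * Real.pi * Complex.I / 4) := by
      rw [map_div₀, hn, map_ofNat]
      push_cast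
      ring
    rw [h8, Complex.exp_neg, h6, Complex.inv_I] at h7
    have h9 : Complex.I = 0 := by
      have h10 : (2 : ℂ) * Complex.I = 0 := by linear_combination -h7
      simp at h10
    exact Complex.I_ne_zero h9

/-- (1) -/
theorem no_translation (hα : ∀ z, α (Complex.exp z) = Complex.exp (α z))
    (H : ∀ z : ℂ, ¬ LinearIndependent (Per α) fun j : ℕ => α^[j] z) (c : ℂ) : α c ≠ c + 1 := by
  intro hc
  have h1 : ∀ n : ℕ, α^[n] c = c + n := by
    intro n
    induction n with
    | zero => simp
    | succ n ih =>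
      rw [Function.iterate_succ_apply', ih, map_add, hc, map_natCast]
      push_cast
      ring
  have hexp : ∀ (n : ℕ) (z : ℂ), α^[n] (Complex.exp z) = Complex.exp (α^[n] z) := by
    intro n
    induction n with
    | zero => intro z; rfl
    | succ n ih =>
      intro z
      rw [Function.iterate_succ_apply', ih, hα, Function.iterate_succ_apply']
  have h2 : ∀ n : ℕ, α^[n] (Complex.exp (c ^ 2)) =
      Complex.exp (c ^ 2) * ((Complex.exp (2 * c)) ^ n * Complex.exp ((n : ℂ) ^ 2)) := by
    intro n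
    rw [hexp, iterate_map_pow, h1, ← Complex.exp_nat_mul, ← Complex.exp_add, ← Complex.exp_add]
    congr 1
    ring
  have hfix : ∀ n : ℕ, Complex.exp ((n : ℂ) ^ 2) ∈ Per α := by
    intro n
    refine ⟨1, one_pos, ?_⟩
    rw [Function.iterate_one, hα, map_pow, map_natCast]
  have h3 := H (Complex.exp (c ^ 2))
  rw [not_linearIndependent_iff] at h3
  obtain ⟨s, g, hg, i, hi, hgi⟩ := h3
  let q : (Per α)[X] := ∑ n ∈ s, monomial n (g n * ⟨Complex.exp ((n : ℂ) ^ 2), hfix n⟩)
  have hqc : q.coeff i = g i * ⟨_, hfix i⟩ := by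
    simp only [q, finsetSum_coeff, coeff_monomial]
    rw [Finset.sum_ite_eq' s i, if_pos hi]
  have hq : q ≠ 0 := by
    intro h
    rw [h, coeff_zero] at hqc
    rcases mul_eq_zero.1 hqc.symm with h3 | h3
    · exact hgi h3
    · exact Complex.exp_ne_zero _ (congrArg Subtype.val h3)
  have hq0 : aeval (Complex.exp (2 * c)) q = 0 := by
    simp only [h2, Subfield.smul_def, smul_eq_mul] at hg
    have h3 : aeval (Complex.exp (2 * c)) q = ∑ n ∈ s,
        ((g n : ℂ) * Complex.exp ((n : ℂ) ^ 2)) * Complex.exp (2 * c) ^ n := by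
      simp only [q, map_sum, aeval_monomial]
      refine Finset.sum_congr rfl fun n _ => ?_
      rfl
    rw [h3]
    have h4 : Complex.exp (c ^ 2) * ∑ n ∈ s,
        ((g n : ℂ) * Complex.exp ((n : ℂ) ^ 2)) * Complex.exp (2 * c) ^ n = 0 := by
      rw [← hg, Finset.mul_sum]
      refine Finset.sum_congr rfl fun n _ => ?_
      ring
    exact (mul_eq_zero.1 h4).resolve_left (Complex.exp_ne_zero _)
  obtain ⟨m, hm, hm0⟩ := mem_Per.1 (mem_Per_of_root hq hq0)
  have h5 : α^[m] (2 * c) = 2 * c + 2 * m := by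
    have h6 : ∀ n : ℕ, α^[n] (2 * c) = 2 * c + 2 * n := by
      intro n
      induction n with
      | zero => simp
      | succ n ih =>
        rw [Function.iterate_succ_apply', ih, map_add, map_mul, map_mul, hc, map_natCast, map_ofNat]
        push_cast
        ring
    exact h6 m
  rw [hexp, h5, Complex.exp_add] at hm0
  have h6 : Complex.exp (2 * m) = 1 := by
    have h7 := mul_left_cancel₀ (Complex.exp_ne_zero (2 * c)) (hm0.trans (mul_one _).symm)
    exact h7
  have h7 : Real.exp (2 * m) = 1 := by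
    have h8 : ((Real.exp (2 * m) : ℝ) : ℂ) = 1 := by
      rw [Complex.ofReal_exp]
      push_cast
      exact h6
    exact_mod_cast h8
  have h8 : (2 * m : ℝ) = 0 := by
    rw [← Real.exp_zero] at h7
    exact Real.exp_injective h7
  have h9 : (0 : ℝ) < m := Nat.cast_pos.2 hm
  linarith

/-- (2) -/
theorem eq_of_translation (h1 : ∀ c : ℂ, α c ≠ c + 1) {c k : ℂ} (hk : α k = k)
    (hc : α c = c + k) : k = 0 := by
  by_contra h0
  apply h1 (c / k)
  rw [map_div₀, hc, hk, add_div, div_self h0]

/-- (3) -/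
theorem fix_of_exp (hα : ∀ z, α (Complex.exp z) = Complex.exp (α z)) (hI : α Complex.I = Complex.I)
    (h1 : ∀ c : ℂ, α c ≠ c + 1) {c l : ℂ} (hl : α l = l)
    (hc : Complex.exp (α c) = Complex.exp (l + c)) : α c = c := by
  obtain ⟨n, hn⟩ := Complex.exp_eq_exp_iff_exists_int.1 hc
  have h2 : α (l + n * (2 * Real.pi * Complex.I)) = l + n * (2 * Real.pi * Complex.I) := by
    rw [map_add, hl, map_mul, fix_two_pi hα hI, map_intCast]
  have h3 := eq_of_translation h1 h2 (c := c) (by rw [hn]; ring)
  rw [hn]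
  linear_combination h3

/-- (4) -/
theorem eigen (hα : ∀ z, α (Complex.exp z) = Complex.exp (α z)) (hI : α Complex.I = Complex.I)
    (h1 : ∀ c : ℂ, α c ≠ c + 1) {y l : ℂ} (hl : α l = l) (hy : α y = l * y) : α y = y := by
  by_cases h0 : y = 0
  · rw [h0, map_zero]
  have hl0 : l ≠ 0 := by
    intro h
    rw [h, zero_mul] at hy
    exact h0 (α.injective (hy.trans (map_zero α).symm))
  have hL : α (Complex.log l) = Complex.log l := by
    apply fix_of_exp hα hI h1 (l := 0) (map_zero α)
    rw [zero_add, ← hα, Complex.exp_log hl0, hl]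
  have hY : α (Complex.log y) = Complex.log y := by
    apply fix_of_exp hα hI h1 hL
    rw [← hα, Complex.exp_log h0, hy, Complex.exp_add, Complex.exp_log hl0, Complex.exp_log h0]
  rw [← Complex.exp_log h0, hα, hY]

/-- (5) -/
theorem fix_of_roots (hα : ∀ z, α (Complex.exp z) = Complex.exp (α z))
    (hI : α Complex.I = Complex.I) (h1 : ∀ c : ℂ, α c ≠ c + 1) (s : Multiset (Fix α)) :
    ∀ z : ℂ, aeval (lin α) (s.map fun a => X - C a).prod z = 0 → α z = z := by
  induction s using Multiset.induction_on with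
  | empty =>
    intro z hz
    rw [Multiset.map_zero, Multiset.prod_zero, map_one, Module.End.one_apply] at hz
    rw [hz, map_zero]
  | cons a s ih =>
    intro z hz
    rw [Multiset.map_cons, Multiset.prod_cons] at hz
    set Q : (Fix α)[X] := (s.map fun a => X - C a).prod with hQ
    rw [map_mul, Module.End.mul_apply, map_sub, aeval_X, aeval_C, LinearMap.sub_apply, lin_apply,
      Module.algebraMap_end_apply, Subfield.smul_def, smul_eq_mul, sub_eq_zero] at hz
    have h2 : α (aeval (lin α) Q z) = aeval (lin α) Q z := eigen hα hI h1 a.2 hz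
    have h3 : aeval (lin α) Q (α z - z) = 0 := by
      have h4 : aeval (lin α) Q (α z) = α (aeval (lin α) Q z) := by
        have h5 : aeval (lin α) Q * lin α = lin α * aeval (lin α) Q := by
          have h6 := congrArg (aeval (lin α)) (mul_comm Q X)
          rwa [map_mul, map_mul, aeval_X] at h6
        exact congrArg (fun f => f z) h5
      rw [map_sub, h4, h2, sub_self]
    have h4 : α (α z - z) = α z - z := ih _ h3
    have h5 := eq_of_translation h1 h4 (c := z) (by ring)
    exact sub_eq_zero.1 h5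

/-- (6) -/
theorem fix_of_orbit (hα : ∀ z, α (Complex.exp z) = Complex.exp (α z))
    (hI : α Complex.I = Complex.I) (h1 : ∀ c : ℂ, α c ≠ c + 1) {z : ℂ} (hz : z ∈ Per α) :
    α z = z := by
  obtain ⟨m, hm, hmz⟩ := hz
  have hfix : Complex.exp (2 * Real.pi * Complex.I / m) ∈ Fix α := by
    rw [mem_Fix, hα, map_div₀, fix_two_pi hα hI, map_natCast]
  have hprim : IsPrimitiveRoot (⟨_, hfix⟩ : Fix α) m :=
    IsPrimitiveRoot.of_map_of_injective (f := (Fix α).subtype)
      (Complex.isPrimitiveRoot_exp m hm.ne') (Fix α).subtype.injective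
  apply fix_of_roots hα hI h1 (nthRootsFinset m (1 : Fix α)).val
  have h2 : (Multiset.map (fun a => X - C a) (nthRootsFinset m (1 : Fix α)).val).prod =
      (X ^ m - 1 : (Fix α)[X]) := by
    rw [X_pow_sub_one_eq_prod hm hprim]
    rfl
  rw [h2, map_sub, map_pow, aeval_X, map_one, LinearMap.sub_apply, lin_pow, hmz,
    Module.End.one_apply, sub_self]

theorem isAlgClosed (hα : ∀ z, α (Complex.exp z) = Complex.exp (α z))
    (hI : α Complex.I = Complex.I) (h1 : ∀ c : ℂ, α c ≠ c + 1) : IsAlgClosed (Fix α) := by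
  apply IsAlgClosed.of_exists_root
  intro p hp hirr
  obtain ⟨z, hz⟩ := IsAlgClosed.exists_aeval_eq_zero ℂ p (degree_pos_of_irreducible hirr).ne'
  have h2 : α z = z := fix_of_orbit hα hI h1 (orbit_finite hirr.ne_zero hz)
  refine ⟨⟨z, h2⟩, ?_⟩
  apply (Fix α).subtype.injective
  rw [map_zero, ← hz, aeval_def, ← eval₂_at_apply]
  rfl

/-- the case `α(i) = i` -/
theorem eq_one (hα : ∀ z, α (Complex.exp z) = Complex.exp (α z)) (hI : α Complex.I = Complex.I)
    (H : ∀ z : ℂ, ¬ LinearIndependent (Per α) fun j : ℕ => α^[j] z) (z : ℂ) : α z = z := by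
  have h1 := no_translation hα H
  have := isAlgClosed hα hI h1
  obtain ⟨s, g, hg, i, hi, hgi⟩ := not_linearIndependent_iff.1 (H z)
  let P : (Fix α)[X] := ∑ j ∈ s, monomial j (⟨g j, fix_of_orbit hα hI h1 (g j).2⟩ : Fix α)
  have hP : P ≠ 0 := by
    intro h0
    have h1 := congrArg (fun q => coeff q i) h0
    simp only [P, finsetSum_coeff, coeff_monomial, coeff_zero] at h1
    rw [Finset.sum_ite_eq' s i, if_pos hi] at h1
    exact hgi (Subtype.ext (congrArg (fun w : Fix α => (w : ℂ)) h1))
  have hz : aeval (lin α) P z = 0 := by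
    rw [map_sum, LinearMap.sum_apply, ← hg]
    refine Finset.sum_congr rfl fun j _ => ?_
    rw [aeval_monomial, Module.End.mul_apply, lin_pow]
    rfl
  have h2 := (IsAlgClosed.splits P).eq_prod_roots
  rw [h2, map_mul, aeval_C, Module.End.mul_apply, Module.algebraMap_end_apply, Subfield.smul_def,
    smul_eq_mul] at hz
  have h3 : (P.leadingCoeff : ℂ) ≠ 0 := by
    intro h
    exact hP (leadingCoeff_eq_zero.1 (Subtype.ext h))
  exact fix_of_roots hα hI h1 P.roots z ((mul_eq_zero.1 hz).resolve_left h3)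

end exp

section square

variable {α : ℂ ≃+* ℂ}

/-- if an orbit is linearly dependent over `Per α`, so is the orbit under `α²` -/
theorem dep_sq {z : ℂ} (h : ¬ LinearIndependent (Per α) fun j : ℕ => α^[j] z) :
    ¬ LinearIndependent (Per (α.trans α)) fun j : ℕ => (α.trans α)^[j] z := by
  classical
  have hit : ∀ (j : ℕ) (x : ℂ), (α.trans α)^[j] x = α^[2 * j] x := by
    intro j x
    rw [Function.iterate_mul]
    rfl
  have hle : ∀ x ∈ Per α, x ∈ Per (α.trans α) := by
    rintro x ⟨m, hm, hx⟩
    exact ⟨m, hm, by rw [hit, mul_comm, Function.iterate_mul, Function.iterate_fixed hx]⟩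
  obtain ⟨s, g, hg, i, hi, hgi⟩ := not_linearIndependent_iff.1 h
  let t := s.filter fun j => g j ≠ 0
  have ht : t.Nonempty := ⟨i, Finset.mem_filter.2 ⟨hi, hgi⟩⟩
  obtain ⟨N, hN, hmax⟩ : ∃ N ∈ t, ∀ j ∈ t, j ≤ N := ⟨t.max' ht, t.max'_mem ht, fun j hj => t.le_max' j hj⟩
  have hgt : ∑ j ∈ t, g j • α^[j] z = 0 := by
    rw [← hg]
    refine Finset.sum_subset (Finset.filter_subset _ _) fun j hj hjt => ?_
    have h1 : g j = 0 := by
      by_contra h2
      exact hjt (Finset.mem_filter.2 ⟨hj, h2⟩)
    rw [h1, zero_smul]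
  let W : Submodule (Per α) ℂ := Submodule.span (Per α) ((fun j : ℕ => α^[j] z) '' Set.Iio N)
  have hNW : α^[N] z ∈ W := by
    have h1 : g N ≠ 0 := (Finset.mem_filter.1 hN).2
    rw [← Finset.add_sum_erase t _ hN] at hgt
    have h2 : α^[N] z = (g N)⁻¹ • -∑ j ∈ t.erase N, g j • α^[j] z := by
      rw [← eq_neg_of_add_eq_zero_left hgt, smul_smul, inv_mul_cancel₀ h1, one_smul]
    rw [h2]
    refine Submodule.smul_mem _ _ (Submodule.neg_mem _ (Submodule.sum_mem _ fun j hj => ?_))
    have h3 := Finset.mem_erase.1 hj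
    exact Submodule.smul_mem _ _
      (Submodule.subset_span ⟨j, lt_of_le_of_ne (hmax j h3.2) h3.1, rfl⟩)
  have hαW : ∀ x ∈ W, α x ∈ W := by
    intro x hx
    induction hx using Submodule.span_induction with
    | mem x hx =>
      obtain ⟨j, hj, rfl⟩ := hx
      have h1 : α (α^[j] z) = α^[j + 1] z := (Function.iterate_succ_apply' ..).symm
      change α (α^[j] z) ∈ W
      rw [h1]
      rcases (Nat.succ_le_of_lt hj).lt_or_eq with h2 | h2
      · exact Submodule.subset_span ⟨j + 1, h2, rfl⟩
      · rw [Nat.succ_eq_add_one] at h2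
        rw [h2]
        exact hNW
    | zero => rw [map_zero]; exact Submodule.zero_mem _
    | add x y _ _ hx hy => rw [map_add]; exact Submodule.add_mem _ hx hy
    | smul a x _ hx =>
      have h1 : α (a : ℂ) ∈ Per α := by
        obtain ⟨m, hm, ha⟩ := a.2
        refine ⟨m, hm, ?_⟩
        rw [← Function.iterate_succ_apply, Function.iterate_succ_apply', ha]
      rw [Subfield.smul_def, smul_eq_mul, map_mul]
      exact W.smul_mem (⟨_, h1⟩ : Per α) hx
  have hz : ∀ j : ℕ, α^[j] z ∈ W := by
    intro j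
    rcases lt_or_ge j N with h1 | h1
    · exact Submodule.subset_span ⟨j, h1, rfl⟩
    · obtain ⟨k, rfl⟩ := Nat.exists_eq_add_of_le' h1
      clear h1
      induction k with
      | zero => rw [Nat.zero_add]; exact hNW
      | succ k ih =>
        rw [Nat.succ_add, Function.iterate_succ_apply']
        exact hαW _ ih
  have : Module.Finite (Per α) W :=
    Module.Finite.span_of_finite _ ((Set.finite_Iio N).image _)
  have h3 : ¬ LinearIndependent (Per α) fun j : ℕ => (⟨α^[2 * j] z, hz (2 * j)⟩ : W) := by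
    intro hli
    have := hli.finite
    exact not_finite ℕ
  obtain ⟨s', g', hg', i', hi', hgi'⟩ := not_linearIndependent_iff.1 h3
  refine not_linearIndependent_iff.2 ⟨s', fun j => ⟨g' j, hle _ (g' j).2⟩, ?_, i', hi', ?_⟩
  · have h4 := congrArg W.subtype hg'
    rw [map_zero, map_sum] at h4
    rw [← h4]
    refine Finset.sum_congr rfl fun j _ => ?_
    rw [hit]
    rfl
  · intro h4
    exact hgi' (Subtype.ext (congrArg (fun w : Per (α.trans α) => (w : ℂ)) h4))

end square

/-- An exponential automorphism of `ℂ` is the identity, or an involution with `α(i) = -i`, or has an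
orbit `z, α z, α² z, …` which is linearly independent over the field of the numbers with a finite
orbit. -/
theorem result (α : ℂ ≃+* ℂ) (hα : ∀ z : ℂ, α (Complex.exp z) = Complex.exp (α z)) :
    (∀ z : ℂ, α z = z) ∨ (α Complex.I = -Complex.I ∧ ∀ z : ℂ, α (α z) = z) ∨
      ∃ z : ℂ, LinearIndependent (Per α) fun j : ℕ => α^[j] z := by
  by_cases H : ∃ z : ℂ, LinearIndependent (Per α) fun j : ℕ => α^[j] z
  · exact Or.inr (Or.inr H)
  push Not at H
  have h3 : α Complex.I * α Complex.I = -1 := by
    rw [← map_mul, Complex.I_mul_I, map_neg, map_one]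
  have h4 : (α Complex.I - Complex.I) * (α Complex.I + Complex.I) = 0 := by
    linear_combination h3 - Complex.I_mul_I
  rcases mul_eq_zero.1 h4 with h5 | h5
  · exact Or.inl (eq_one hα (sub_eq_zero.1 h5) H)
  · have h6 : α Complex.I = -Complex.I := eq_neg_of_add_eq_zero_left h5
    refine Or.inr (Or.inl ⟨h6, ?_⟩)
    have h1 : ∀ z, (α.trans α) (Complex.exp z) = Complex.exp ((α.trans α) z) := by
      intro z
      change α (α _) = Complex.exp (α (α z))
      rw [hα, hα]
    have h2 : (α.trans α) Complex.I = Complex.I := by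
      change α (α _) = _
      rw [h6, map_neg, h6, neg_neg]
    exact eq_one h1 h2 fun z => dep_sq (H z)

end Pool.Agent.Results.MP_2315c8_nt.LocallyFinite
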