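import Pool.Agent.Lib.MP_2315c8_nt.Main

/-!
# Automorphisms of the complex exponential field: the real locus

Let `α` be an exponential automorphism of `ℂ` and `K` the field of the numbers at which `α` commutes
with complex conjugation (it contains every real number whose image is real).  If `α` is not the
identity or complex conjugation, then the transcendence degree of `ℂ` over `K` is the continuum.
-/

set_option autoImplicit false

open Pool.Agent.Lib.MP_2315c8_nt

namespace Pool.Agent.Results.MP_2315c8_nt.RealLocus

theorem result (α : ℂ ≃+* ℂ) (hα : ∀ z : ℂ, α (Complex.exp z) = Complex.exp (α z)) :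
    List.TFAE [
      -- `α` is the identity or complex conjugation
      (∀ z, α z = z) ∨ (∀ z, α z = starRingEnd ℂ z),
      -- the image of some large field of real numbers is not dense
      ∃ F : Subfield ℝ, Algebra.trdeg F ℝ < Cardinal.continuum ∧
        ¬ Dense {w : ℂ | ∃ x ∈ F, w = α (x : ℂ)},
      -- the transcendence degree over the field where `α` commutes with conjugation is small
      Algebra.trdeg (commField α) ℂ < Cardinal.continuum,
      -- every number is exponentially algebraic over this field
      ∀ t : ℂ, ∃ f, ExpPoly (commField α) f ∧ (∃ z, f z ≠ 0) ∧ f t = 0,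
      -- the orbits of the commutator of `α` and conjugation are locally finite
      ∀ t : ℂ, {w : ℂ | ‖w‖ ≤ 1 ∧ ∃ n : ℕ,
        w = (fun z => α.symm (starRingEnd ℂ (α (starRingEnd ℂ z))))^[n] t}.Finite] :=
  main α hα

end Pool.Agent.Results.MP_2315c8_nt.RealLocus
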